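import Pool.Agent.Lib.MP_60ff09_nt.Dih.FNz
import Pool.Agent.Lib.MP_60ff09_nt.Dih.BC

set_option autoImplicit false

open NumberField CategoryTheory MonoidalCategory Pool.Agent.Lib.MP_60ff09_nt.V4

namespace Pool.Agent.Results.MP_60ff09_nt.Dihedral15

/-- The conjecture of Beilinson for triple products of weights `(2, 1, 1)` in a family of dihedral
type. Let `f` be the newform of level 15, let `p`, `q` be primes congruent to 17 or 53 and to 7 or
43 modulo 60, and let `K` be the field generated by a square root `δ` of `-p q`. Let `V_g`, `V_h` be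
two-dimensional Artin representations such that `ℂ ⊗ V_g ⊗ V_h` is the sum of two representations
induced from everywhere unramified characters of `K` whose orders are powers of two. Then the order
of vanishing of the triple product `L`-function at the centre is the dimension of the space of
equivariant maps from `V_g ⊗ V_h` to `L ⊗ X_1(15)(H)`, and both are two. -/
theorem result (p q : ℕ) (hp : p.Prime) (hq : q.Prime) (hp' : p % 60 = 17 ∨ p % 60 = 53)
    (hq' : q % 60 = 7 ∨ q % 60 = 43) :
    ∃ a : ℕ → ℤ,
      (∀ z : ℂ, 0 < z.im →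
        HasSum (fun n : ℕ => (a n : ℂ) * Complex.exp (2 * Real.pi * Complex.I * n * z))
          (ModularForm.eta z * ModularForm.eta (3 * z) * ModularForm.eta (5 * z) *
            ModularForm.eta (15 * z))) ∧
      ∀ (M L : Type) [Field M] [NumberField M] [IsGalois ℚ M] [Field L] [Algebra L ℂ] (δ : M)
        (Vg Vh : Rep L (M ≃ₐ[ℚ] M)), δ ^ 2 = -(p * q : M) → Module.finrank L Vg = 2 →
        Module.finrank L Vh = 2 → IndSum (bc ℂ (Vg ⊗ Vh)) δ → Beil a (Vg ⊗ Vh) 2 := by
  open Pool.Agent.Lib.MP_696deb_nt Pool.Agent.Lib.MP_60ff09_nt in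
  refine ⟨a15, hasSum_a15, fun M L _ _ _ _ _ δ Vg Vh hδ hg hh hV => ?_⟩
  have : Module.Finite L Vg := Module.finite_of_finrank_pos (by omega)
  have : Module.Finite L Vh := Module.finite_of_finrank_pos (by omega)
  have : Module.Finite L (Vg ⊗ Vh : Rep L _) := Module.Finite.tensorProduct L Vg Vh
  exact beil_bc (Pool.Agent.DH.beil_dih ⟨hp, hq, hp', hq'⟩ (by rw [hδ, Nat.cast_mul]) hV)

end Pool.Agent.Results.MP_60ff09_nt.Dihedral15
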