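import Pool.Agent.Lib.MP_60ff09_nt.PP.Top

set_option autoImplicit false

open Pool.Agent.Lib.MP_60ff09_nt.V6 Pool.Agent.Lib.MP_60ff09_nt.PR

namespace Pool.Agent.Results.MP_60ff09_nt.PrimeTheta

/-- Let `W` be the curve 11a1 or 19a1, of conductor `N`. There is a set `S` of natural numbers that
contains at least eleven twelfths (lower natural density) of the primes that are one modulo four,
such that the conjecture of Beilinson holds for all pairs of two-dimensional Artin representations
whose tensor product is the sum of the quadratic characters attached to four integers with absolute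
values in `S`. -/
theorem result (N : ℕ) (W : WeierstrassCurve ℤ)
    (hE : (N, W) ∈ ({(11, ⟨0, -1, 1, -10, -20⟩), (19, ⟨0, 1, 1, -9, -15⟩)} :
      Set (ℕ × WeierstrassCurve ℤ))) :
    ∃ S : Set ℕ, (∀ ε : ℝ, 0 < ε → ∀ᶠ X : ℕ in Filter.atTop,
        (11 / 12 - ε) * (Set.ncard {l : ℕ | l ≤ X ∧ l.Prime ∧ l % 4 = 1} : ℝ) ≤
          (Set.ncard {l : ℕ | l ≤ X ∧ l.Prime ∧ l % 4 = 1 ∧ l ∈ S} : ℝ)) ∧
      ∀ d : Fin 4 → ℤ, (∀ i, (d i).natAbs ∈ S) → HoldsN (W.map (Int.castRingHom ℚ)) N (ap W) d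
        (∑ i, if jacobiSym ((d i).natAbs : ℤ) N = 1 then 0 else 1) := by
  rcases hE with h | h <;> obtain ⟨rfl, rfl⟩ := h
  · exact goal2_11
  · exact goal2_19

end Pool.Agent.Results.MP_60ff09_nt.PrimeTheta
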