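import Pool.Agent.Lib.MP_60ff09_nt.QB.GTop
import Pool.Agent.Lib.MP_696deb_nt.EU.Main
import Pool.Agent.Lib.MP_696deb_nt.Y2.Top

set_option autoImplicit false

open Filter Topology Pool.Agent.Lib.MP_60ff09_nt.QB

namespace Pool.Agent.Results.MP_60ff09_nt.QuarticPairs

/-- The conjecture of Beilinson for triple products of weights `(2, 1, 1)` of quartic type. Let `f`
be the newform of the curve `y ^ 2 = x ^ 3 - B x` with `B` free of fourth powers. There is a set `S`
of density one among the integers that are free of fourth powers and prime to `B` such that, for all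
`N 0` and `N 1` in `S` and all `g`, `h` for which the tensor product of the two representations is
the sum of the representations induced from the quartic characters of the Gaussian field given by
the fourth roots of `N 0` and `N 1`, the order of vanishing and the dimension of the space of
equivariant maps are both equal to the number of the four curves `y ^ 2 = x ^ 3 - B (N a) ^ b x`
(`b` equal to one or three) of root number minus one. -/
theorem result (B : ℤ) (hB : ∀ p : ℕ, p.Prime → ¬ (p : ℤ) ^ 4 ∣ B) :
    ∃ S : Set ℤ, Tendsto (fun X : ℕ =>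
      (Set.ncard {N : ℤ | |N| ≤ X ∧
        ((∀ p : ℕ, p.Prime → ¬ (p : ℤ) ^ 4 ∣ N) ∧ IsCoprime N B) ∧ N ∈ S} : ℝ) /
      (Set.ncard {N : ℤ | |N| ≤ X ∧ (∀ p : ℕ, p.Prime → ¬ (p : ℤ) ^ 4 ∣ N) ∧ IsCoprime N B} : ℝ))
      atTop (𝓝 1) ∧
    ∀ N : Fin 2 → ℤ, (∀ a, N a ∈ S) → HoldsP B N (minus2 B N) :=
  pairs Pool.Agent.Lib.MP_696deb_nt.EU.conv Pool.Agent.Lib.MP_696deb_nt.Y2.one hB

end Pool.Agent.Results.MP_60ff09_nt.QuarticPairs
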