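import Pool.Agent.Lib.MP_60ff09_nt.CB.Top

set_option autoImplicit false

open Filter Topology Pool.Agent.Lib.MP_60ff09_nt.CB

namespace Pool.Agent.Results.MP_60ff09_nt.SexticPairs

/-- The conjecture of Beilinson for triple products of weights `(2, 1, 1)` of sextic type. Let `f`
be the newform of the curve `y ^ 2 = x ^ 3 + B` with `B` free of sixth powers. There is a set `S`
that contains a proportion one of each family `A N ^ 2` such that, for all `D 0` and `D 1` in `S`
and all `g`, `h` for which the tensor product of the two representations is the sum of the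
representations induced from the sextic characters of the Eisenstein field given by the sixth roots
of `D 0` and `D 1`, the order of vanishing and the dimension of the space of equivariant maps are
both equal to the number of the four curves `y ^ 2 = x ^ 3 + B (D a) ^ b` (`b` equal to one or
five) of root number minus one. -/
theorem result (B : ℤ) (hB : ∀ p : ℕ, p.Prime → ¬ (p : ℤ) ^ 6 ∣ B) :
    ∃ S : Set ℤ, (∀ A : ℤ, (∀ p : ℕ, p.Prime → ¬ (p : ℤ) ^ 6 ∣ A) → IsCoprime A (2 * B) →
      (B % 32 = 16 → A % 4 = 1) → Tendsto (fun X : ℕ =>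
        (Set.ncard {N : ℤ | |N| ≤ X ∧ Adm B A N ∧ A * N ^ 2 ∈ S} : ℝ) /
        (Set.ncard {N : ℤ | |N| ≤ X ∧ Adm B A N} : ℝ)) atTop (𝓝 1)) ∧
    ∀ D : Fin 2 → ℤ, (∀ a, D a ∈ S) → HoldsS B D (minus6 B D) :=
  have h : B ≠ 0 := fun e => hB 2 Nat.prime_two (e ▸ dvd_zero _)
  ⟨{D | Gd B D}, fun _ h1 h2 h3 => tend_gd h h2 h3 h1, fun _ k => holdsS h k⟩

end Pool.Agent.Results.MP_60ff09_nt.SexticPairs
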